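import Pool.Agent.Y718.FQ.Stm
import Pool.Agent.Y447.CL.Small

/-!
# Divisibility in the directions of a chart
-/

set_option autoImplicit false
set_option linter.unusedVariables false

open MvPolynomial Pool.Agent.Y718 Pool.Agent.Y718.SF Pool.Agent.Y718.CL

namespace Pool.Agent.Y718.FQ

theorem bd : S_BD := by
  intro K _ _ n F hF p z h
  set Z : Fin (n + 1) → K := ic p 1 z with hZ
  -- the decomposition of a direction
  have hB : ∀ U : Fin (n + 1) → K, gB (lg F Z U) =
      eval (fun j => U (p.succAbove j) - U p * z j) (gB (g0 (dh F p) z)) := by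
    intro U
    conv_lhs => rw [ic_split p z U]
    rw [gB_shift hF, Bp_eval, dh_lg]
  have hT : ∀ U : Fin (n + 1) → K, SF.gT (lg F Z U) =
      eval (fun j => U (p.succAbove j) - U p * z j) (SF.gT (g0 (dh F p) z)) -
        8 * U p * eval Z F *
          eval (fun j => U (p.succAbove j) - U p * z j) (gB (g0 (dh F p) z)) := by
    intro U
    conv_lhs => rw [ic_split p z U]
    rw [gT_shift hF, Tp_eval, Bp_eval, dh_lg]
    have h0 : (lg F Z (ic p 0 fun j => U (p.succAbove j) - U p * z j)).coeff 0 = eval Z F := by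
      rw [Polynomial.coeff_zero_eq_eval_zero, lg_eval, zero_smul, add_zero]
    rw [h0]
  have h3 : (gB (g0 (dh F p) z)).IsHomogeneous 3 :=
    hom_of_scale fun U c => by rw [Bp_eval, Bp_eval, gB_smul]
  have h4 : (SF.gT (g0 (dh F p) z)).IsHomogeneous 4 :=
    hom_of_scale fun U c => by rw [Tp_eval, Tp_eval, SF.gT_smul]
  rcases h with h | h
  · left
    intro U
    rw [hB, h, map_zero]
  · right
    obtain ⟨l, hl⟩ := Pool.Agent.Y447.CL.lin K (Fin n) _ _ h3 h4 h
    refine ⟨Fin.insertNth (α := fun _ => K) p (-(∑ j, l j * z j) - 8 * eval Z F) l, fun U => ?_⟩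
    rw [hT, hB, hl, Fin.sum_univ_succAbove _ p]
    simp only [Fin.insertNth_apply_same, Fin.insertNth_apply_succAbove]
    have e1 : ∑ i, l i * (U (p.succAbove i) - U p * z i) =
        ∑ i, l i * U (p.succAbove i) - U p * ∑ i, l i * z i := by
      rw [Finset.mul_sum, ← Finset.sum_sub_distrib]
      exact Finset.sum_congr rfl fun i _ => by ring
    rw [e1]
    ring

end Pool.Agent.Y718.FQ
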