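import Mathlib

/-!
# Embeddings into the complex numbers
-/

set_option autoImplicit false

open Cardinal

namespace Pool.Agent.Y718.FQ

/-- **A field of characteristic zero with at most continuum many elements embeds into `ℂ`.** -/
theorem emb_C (K : Type) [Field K] [CharZero K] (h : #K ≤ continuum) : Nonempty (K →+* ℂ) := by
  set F := FractionRing (MvPolynomial ℝ K) with hF
  have h1 : #(AlgebraicClosure F) ≤ continuum := by
    refine (Algebra.IsAlgebraic.cardinalMk_le_max F (AlgebraicClosure F)).trans ?_
    refine max_le ?_ aleph0_le_continuum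
    rw [hF, FractionRing.cardinalMk]
    refine MvPolynomial.cardinalMk_le_max.trans ?_
    refine max_le (max_le h ?_) aleph0_le_continuum
    exact Cardinal.mk_real.le
  have h2 : continuum ≤ #(AlgebraicClosure F) := by
    rw [← Cardinal.mk_real]
    refine mk_le_of_injective (f := fun r : ℝ => algebraMap F (AlgebraicClosure F)
      (algebraMap (MvPolynomial ℝ K) F (MvPolynomial.X r))) ?_
    intro r s hrs
    have h3 := (algebraMap F (AlgebraicClosure F)).injective hrs
    have h4 := IsFractionRing.injective (MvPolynomial ℝ K) F h3
    exact MvPolynomial.X_injective h4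
  have : CharZero F := charZero_of_injective_algebraMap
    (IsFractionRing.injective (MvPolynomial ℝ K) F)
  have : CharZero (AlgebraicClosure F) := charZero_of_injective_algebraMap
    (algebraMap F (AlgebraicClosure F)).injective
  have h3 : #(AlgebraicClosure F) = #ℂ := by
    rw [Cardinal.mk_complex]
    exact le_antisymm h1 h2
  obtain ⟨e⟩ := Cardinal.eq.1 h3
  obtain ⟨f⟩ := IsAlgClosed.ringEquiv_of_equiv_of_charZero (K := AlgebraicClosure F) (L := ℂ)
    (aleph0_lt_continuum.trans_le h2) ⟨e⟩
  exact ⟨f.toRingHom.comp ((algebraMap F (AlgebraicClosure F)).comp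
    ((algebraMap (MvPolynomial ℝ K) F).comp MvPolynomial.C))⟩

/-- rational function fields -/
theorem emb_fr (K : Type) [Field K] [CharZero K] (h : #K ≤ continuum) (κ : Type) [Countable κ] :
    Nonempty (FractionRing (MvPolynomial κ K) →+* ℂ) := by
  have : CharZero (FractionRing (MvPolynomial κ K)) := charZero_of_injective_algebraMap
    (IsFractionRing.injective (MvPolynomial κ K) (FractionRing (MvPolynomial κ K)))
  refine emb_C _ ?_
  rw [FractionRing.cardinalMk]
  refine MvPolynomial.cardinalMk_le_max.trans ?_
  exact max_le (max_le h (mk_le_aleph0.trans aleph0_le_continuum)) aleph0_le_continuum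

theorem emb_rf (K : Type) [Field K] [CharZero K] (h : #K ≤ continuum) :
    Nonempty (RatFunc K →+* ℂ) := by
  have : CharZero (RatFunc K) :=
    charZero_of_injective_algebraMap (algebraMap K (RatFunc K)).injective
  refine emb_C _ ?_
  have h1 : #(RatFunc K) ≤ #(Polynomial K) := (IsFractionRing.cardinalMk (R := Polynomial K) (RatFunc K)).le
  refine h1.trans (Polynomial.cardinalMk_le_max.trans ?_)
  exact max_le h aleph0_le_continuum

end Pool.Agent.Y718.FQ
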