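import Pool.Agent.TH783.CE.Flat
import Pool.Agent.H391R2.HitSq

/-!
# Flat subrings
-/

set_option autoImplicit false

open Polynomial Pool.Agent.TH783.CE Pool.Agent.H391R2

namespace Pool.Agent.Y718.FQ

/-- **Criterion.** A domain is flat in its field of fractions if the values of nonconstant
polynomials do not divide a given element in general. -/
theorem flat_of_dvd {R : Type} [CommRing R] [IsDomain R] {K : Type} [Field K] [CharZero K]
    [Algebra R K] [IsFractionRing R K]
    (hP : ∀ (d : R) (Q : R[X]), d ≠ 0 → 1 ≤ Q.natDegree → {x : R | ¬ Q.eval x ∣ d}.Infinite) :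
    Flat (Set.range (algebraMap R K)) := by
  classical
  intro p₀ p₁ h0 h
  obtain ⟨g, q₀, q₁, hg0, hq0, hq1, a, b, hab⟩ : ∃ g q₀ q₁ : K[X], g ≠ 0 ∧ p₀ = g * q₀ ∧
      p₁ = g * q₁ ∧ ∃ a b : K[X], a * q₀ + b * q₁ = 1 := by
    have hg : EuclideanDomain.gcd p₁ p₀ ≠ 0 := fun h => h0 (EuclideanDomain.gcd_eq_zero_iff.1 h).2
    obtain ⟨q₀, hq₀⟩ := EuclideanDomain.gcd_dvd_right p₁ p₀
    obtain ⟨q₁, hq₁⟩ := EuclideanDomain.gcd_dvd_left p₁ p₀
    refine ⟨EuclideanDomain.gcd p₁ p₀, q₀, q₁, hg, hq₀, hq₁,
      EuclideanDomain.gcdB p₁ p₀, EuclideanDomain.gcdA p₁ p₀, ?_⟩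
    have h1 := EuclideanDomain.gcd_eq_gcd_ab p₁ p₀
    generalize EuclideanDomain.gcdB p₁ p₀ = b at *
    generalize EuclideanDomain.gcdA p₁ p₀ = a at *
    generalize EuclideanDomain.gcd p₁ p₀ = g at *
    have h2 : g * (b * q₀ + a * q₁ - 1) = 0 := by
      rw [hq₀, hq₁] at h1
      linear_combination -h1
    exact sub_eq_zero.1 ((mul_eq_zero.1 h2).resolve_left hg)
  have hq00 : q₀ ≠ 0 := by
    rintro rfl
    exact h0 (by rw [hq0, mul_zero])
  have hfin : {s : K | (g * q₀).eval s = 0}.Finite := by
    have : {s : K | (g * q₀).eval s = 0} ⊆ (g * q₀).roots.toFinset := by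
      intro s hs
      simp only [Finset.mem_coe, Multiset.mem_toFinset]
      exact (mem_roots (mul_ne_zero hg0 hq00)).2 hs
    exact (Finset.finite_toSet _).subset this
  have hinj : Function.Injective (algebraMap R K) := IsFractionRing.injective R K
  have hval : ∀ s : K, (g * q₀).eval s ≠ 0 → ∃ t : R, q₁.eval s = algebraMap R K t * q₀.eval s := by
    intro s hs
    obtain ⟨t, ht⟩ := h s (by rw [hq0]; exact hs)
    refine ⟨t, ?_⟩
    rw [eval_mul, mul_ne_zero_iff] at hs
    rw [ht, hq0, hq1, eval_mul, eval_mul]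
    have h1 := hs.1
    have h2 := hs.2
    field_simp
  obtain ⟨c0, Q0, hc0, hQ0⟩ := exists_clear (R := R) q₀
  obtain ⟨c1, Q1, hc1, hQ1⟩ := exists_clear (R := R) q₁
  obtain ⟨ca, A, hca, hA⟩ := exists_clear (R := R) a
  obtain ⟨cb, B, hcb, hB⟩ := exists_clear (R := R) b
  have hev : ∀ (P : R[X]) (x : R), (P.map (algebraMap R K)).eval (algebraMap R K x) =
      algebraMap R K (P.eval x) := fun P x => by
    rw [eval_map, eval₂_at_apply]
  have hne : ∀ {c : R}, c ≠ 0 → algebraMap R K c ≠ 0 := fun {c} hc => by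
    rw [Ne, map_eq_zero_iff _ hinj]
    exact hc
  -- the denominator is constant
  have hd0 : q₀.natDegree = 0 := by
    by_contra hcon
    have hdeg : Q0.natDegree = q₀.natDegree := by
      rw [← natDegree_map_eq_of_injective hinj Q0, hQ0, natDegree_C_mul (hne hc0)]
    have hid : C (c1 * cb) * (A * Q0) + C ca * (B * (C c0 * Q1)) = C (c0 * c1 * ca * cb) := by
      apply map_injective (algebraMap R K) hinj
      simp only [Polynomial.map_add, Polynomial.map_mul, map_C, hQ0, hQ1, hA, hB, map_mul]
      linear_combination (C (algebraMap R K c0) * C (algebraMap R K c1) * C (algebraMap R K ca) *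
        C (algebraMap R K cb)) * hab
    refine hP (c0 * c1 * ca * cb) Q0
      (mul_ne_zero (mul_ne_zero (mul_ne_zero hc0 hc1) hca) hcb) (by omega) ?_
    refine (hfin.preimage hinj.injOn).subset ?_
    intro x hx
    by_contra hx0
    apply hx
    obtain ⟨t, ht⟩ := hval (algebraMap R K x) hx0
    have h1 : c0 * Q1.eval x = t * c1 * Q0.eval x := by
      apply hinj
      have e0 : algebraMap R K (Q0.eval x) = algebraMap R K c0 * q₀.eval (algebraMap R K x) := by
        rw [← hev, hQ0, eval_mul, eval_C]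
      have e1 : algebraMap R K (Q1.eval x) = algebraMap R K c1 * q₁.eval (algebraMap R K x) := by
        rw [← hev, hQ1, eval_mul, eval_C]
      rw [map_mul, map_mul, map_mul, e0, e1, ht]
      ring
    have h2 := congrArg (eval x) hid
    simp only [eval_add, eval_mul, eval_C] at h2
    rw [← h2, h1]
    exact ⟨c1 * cb * A.eval x + ca * B.eval x * (t * c1), by ring⟩
  -- the numerator is constant
  obtain ⟨u, hu⟩ : ∃ u, q₀ = C u := ⟨_, eq_C_of_natDegree_eq_zero hd0⟩
  have hu0 : u ≠ 0 := by
    rintro rfl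
    exact hq00 (by rw [hu, C_0])
  have hd1 : q₁.natDegree = 0 := by
    by_contra hcon
    obtain ⟨u1, u2, hu2, hu12⟩ := IsFractionRing.div_surjective (A := R) u
    have hu2' : u2 ≠ 0 := nonZeroDivisors.ne_zero hu2
    have hQ10 : Q1 ≠ 0 := by
      rintro rfl
      rw [Polynomial.map_zero] at hQ1
      rcases mul_eq_zero.1 hQ1.symm with h2 | h2
      · exact hne hc1 (C_eq_zero.1 h2)
      · rw [h2] at hcon
        exact hcon natDegree_zero
    have hdeg : Q1.natDegree = q₁.natDegree := by
      rw [← natDegree_map_eq_of_injective hinj Q1, hQ1, natDegree_C_mul (hne hc1)]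
    refine hP (u2 * Q1.leadingCoeff) X (mul_ne_zero hu2' (leadingCoeff_ne_zero.2 hQ10))
      (by rw [natDegree_X]) ?_
    have hfin2 : {y : R | y = 0 ∨ (g * q₀).eval (algebraMap R K y)⁻¹ = 0}.Finite := by
      have h3 : Function.Injective fun y : R => (algebraMap R K y)⁻¹ := fun y y' h =>
        hinj (inv_injective h)
      refine ((Set.finite_singleton (0 : R)).union (hfin.preimage h3.injOn)).subset ?_
      rintro y (rfl | hy)
      · exact Or.inl rfl
      · exact Or.inr hy
    refine hfin2.subset ?_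
    intro y hy
    by_contra hy0
    rw [Set.mem_ofPred_eq, not_or] at hy0
    apply hy
    rw [eval_X]
    obtain ⟨t, ht⟩ := hval _ hy0.2
    have hyK := hne hy0.1
    -- the reversed polynomial
    have h4 : algebraMap R K (Q1.reverse.eval y) =
        (algebraMap R K y) ^ Q1.natDegree * (Q1.map (algebraMap R K)).eval (algebraMap R K y)⁻¹ := by
      let _ : Invertible (algebraMap R K y)⁻¹ := invertibleOfNonzero (inv_ne_zero hyK)
      have h5 := eval₂_reverse_mul_pow (algebraMap R K) (algebraMap R K y)⁻¹ Q1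
      rw [invOf_eq_inv, inv_inv, eval₂_at_apply] at h5
      rw [eval_map, ← h5, inv_pow]
      have h6 := pow_ne_zero Q1.natDegree hyK
      field_simp
    have h7 : u2 * Q1.reverse.eval y = c1 * t * u1 * y ^ Q1.natDegree := by
      apply hinj
      rw [map_mul, h4, hQ1, eval_mul, eval_C, ht, hu, eval_C, ← hu12]
      simp only [map_mul, map_pow]
      have h8 := hne hu2'
      field_simp
    have h9 : y ∣ u2 * Q1.reverse.eval y := by
      rw [h7]
      exact (dvd_pow_self y (by omega)).mul_left _
    have h10 : y ∣ Q1.reverse.eval y - Q1.reverse.coeff 0 := by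
      have h11 := sub_dvd_eval_sub y 0 Q1.reverse
      rwa [sub_zero, ← coeff_zero_eq_eval_zero] at h11
    have h12 : Q1.reverse.coeff 0 = Q1.leadingCoeff := by
      rw [coeff_zero_reverse]
    rw [h12] at h10
    have h13 : u2 * Q1.leadingCoeff = u2 * Q1.reverse.eval y -
        u2 * (Q1.reverse.eval y - Q1.leadingCoeff) := by ring
    rw [h13]
    exact dvd_sub h9 (h10.mul_left _)
  obtain ⟨v, hv⟩ : ∃ v, q₁ = C v := ⟨_, eq_C_of_natDegree_eq_zero hd1⟩
  refine ⟨v / u, ?_⟩
  rw [hq1, hq0, hv, hu]
  have : C v = C (v / u) * C u := by rw [← C_mul, div_mul_cancel₀ _ hu0]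
  rw [this]
  ring

/-- **Polynomial rings are flat.** -/
theorem flat_poly {k κ : Type} [Field k] [Nonempty κ] {K : Type} [Field K] [CharZero K]
    [Algebra (MvPolynomial κ k) K] [IsFractionRing (MvPolynomial κ k) K] :
    Flat (Set.range (algebraMap (MvPolynomial κ k) K)) := by
  classical
  refine flat_of_dvd fun d Q hd hQ => ?_
  obtain ⟨i⟩ : Nonempty κ := inferInstance
  set M : ℕ := (Q.support.sup fun j => (Q.coeff j).totalDegree) + d.totalDegree with hM
  have hQ0 : Q ≠ 0 := by
    rintro rfl
    rw [natDegree_zero] at hQ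
    omega
  have hX : ∀ N j : ℕ, ((MvPolynomial.X i : MvPolynomial κ k) ^ N) ^ j =
      MvPolynomial.X i ^ (N * j) := fun N j => (pow_mul _ _ _).symm
  have hdX : ∀ N : ℕ, ((MvPolynomial.X i : MvPolynomial κ k) ^ N).totalDegree = N := fun N =>
    MvPolynomial.totalDegree_X_pow i N
  have hinj : Function.Injective fun N : ℕ => (MvPolynomial.X i : MvPolynomial κ k) ^ (M + 1 + N) := by
    intro N N' h
    have h1 := congrArg MvPolynomial.totalDegree h
    simp only [hdX] at h1
    omega
  refine (Set.infinite_range_of_injective hinj).mono ?_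
  rintro _ ⟨N', rfl⟩
  set N := M + 1 + N' with hN
  intro hdvd
  -- the degree of the value
  have hlt : ∀ j ∈ Finset.range Q.natDegree,
      (Q.coeff j * ((MvPolynomial.X i : MvPolynomial κ k) ^ N) ^ j).totalDegree <
        N * Q.natDegree := by
    intro j hj
    rw [Finset.mem_range] at hj
    have h1 : (Q.coeff j).totalDegree ≤ M := by
      by_cases hjs : j ∈ Q.support
      · have := Finset.le_sup (f := fun j => (Q.coeff j).totalDegree) hjs
        omega
      · rw [notMem_support_iff.1 hjs, MvPolynomial.totalDegree_zero]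
        omega
    refine (MvPolynomial.totalDegree_mul _ _).trans_lt ?_
    rw [hX, hdX]
    have h2 : N * j + N ≤ N * Q.natDegree := by nlinarith
    omega
  have hlead : (Q.coeff Q.natDegree * ((MvPolynomial.X i : MvPolynomial κ k) ^ N) ^
      Q.natDegree).totalDegree = Q.leadingCoeff.totalDegree + N * Q.natDegree := by
    rw [hX, MvPolynomial.totalDegree_mul_of_isDomain, hdX]
    · rfl
    · exact leadingCoeff_ne_zero.2 hQ0
    · exact pow_ne_zero _ (MvPolynomial.X_ne_zero i)
  have hsum : (∑ j ∈ Finset.range Q.natDegree,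
      Q.coeff j * ((MvPolynomial.X i : MvPolynomial κ k) ^ N) ^ j).totalDegree <
        N * Q.natDegree := by
    refine lt_of_le_of_lt (MvPolynomial.totalDegree_finsetSum _ _) ?_
    rw [Finset.sup_lt_iff]
    · exact hlt
    · have : 0 < N := by omega
      rw [bot_eq_zero]
      positivity
  have hval : N * Q.natDegree ≤ (Q.eval ((MvPolynomial.X i : MvPolynomial κ k) ^ N)).totalDegree := by
    rw [eval_eq_sum_range, Finset.sum_range_succ, add_comm,
      MvPolynomial.totalDegree_add_eq_left_of_totalDegree_lt]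
    · rw [hlead]
      omega
    · rw [hlead]
      omega
  obtain ⟨e, he⟩ := hdvd
  have he0 : e ≠ 0 := by
    rintro rfl
    exact hd (by rw [he, mul_zero])
  have hv0 : Q.eval ((MvPolynomial.X i : MvPolynomial κ k) ^ N) ≠ 0 := by
    intro h0
    exact hd (by rw [he, h0, zero_mul])
  have h3 : d.totalDegree = (Q.eval ((MvPolynomial.X i : MvPolynomial κ k) ^ N)).totalDegree +
      e.totalDegree :=
    (congrArg MvPolynomial.totalDegree he).trans
      (MvPolynomial.totalDegree_mul_of_isDomain hv0 he0)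
  have h4 : N ≤ N * Q.natDegree := Nat.le_mul_of_pos_right N (by omega)
  omega

end Pool.Agent.Y718.FQ
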