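import Pool.Agent.Y718.FQ.Smo

/-!
# Values of rational functions at the points of products of blocks
-/

set_option autoImplicit false
set_option linter.unusedVariables false
set_option linter.unusedSectionVars false

open MvPolynomial Pool.Agent.Y718 Pool.Agent.Y718.SF Pool.Agent.Y718.CL Pool.Agent.Y720.MZ

namespace Pool.Agent.Y718.FQ

/-- a block -/
def Blk {K : Type} [Field K] {n : ℕ} (S : Set (Fin (n + 1) → K)) : Prop :=
  S = Set.univ ∨ (2 ≤ n ∧ ∃ F : MvPolynomial (Fin (n + 1)) K, F.IsHomogeneous 4 ∧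
    (∀ y : Fin (n + 1) → AlgebraicClosure K, (∀ i, aeval y (pderiv i F) = 0) → y = 0) ∧
    S = {y | y 0 ^ 2 = eval (Function.update y 0 1) F ∧ y 0 ≠ 0})

variable {K : Type} [Field K] [CharZero K]

theorem Blk.fcp (hSEQ : S_SEQ) (hM : S_MVF) (hL : S_LINE) (hBD : S_BD) {O : Set K}
    (hO : Pool.Agent.TH783.CE.Flat O) (φ : K →+* ℂ) {n : ℕ} {S : Set (Fin (n + 1) → K)}
    (hS : Blk S) : FCP O S := by
  rcases hS with rfl | ⟨hn, F, hF, hsm, rfl⟩
  · exact (CP.univ hM hO).fcp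
  · exact FCP.pts hSEQ hM hL hBD hO φ hn hF hsm

/-- **The set of the values of a rational function at the points of a product of blocks is finite if
it is contained in a flat set.** -/
theorem values_finite (hSEQ : S_SEQ) (hM : S_MVF) (hL : S_LINE) (hBD : S_BD) (hPI : S_PI)
    {O : Set K} (hO : Pool.Agent.TH783.CE.Flat O) (φ : K →+* ℂ) {b : ℕ} {n : Fin b → ℕ}
    {S : ∀ j, Set (Fin (n j + 1) → K)} (hS : ∀ j, Blk (S j))
    (p q : MvPolynomial ((j : Fin b) × Fin (n j + 1)) K)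
    (h : ∀ t, (∃ x : (j : Fin b) × Fin (n j + 1) → K, (∀ j, (fun r => x ⟨j, r⟩) ∈ S j) ∧
      eval x q ≠ 0 ∧ t = eval x p / eval x q) → t ∈ O) :
    {t | ∃ x : (j : Fin b) × Fin (n j + 1) → K, (∀ j, (fun r => x ⟨j, r⟩) ∈ S j) ∧
      eval x q ≠ 0 ∧ t = eval x p / eval x q}.Finite :=
  (FCP.pi hPI fun j => (hS j).fcp hSEQ hM hL hBD hO φ).values p q
    fun x hx hq => h _ ⟨x, hx, hq, rfl⟩

end Pool.Agent.Y718.FQ
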