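import Pool.Agent.Y718.FQ.Main
import Pool.Agent.Y362.CL.Smt
import Pool.Agent.Y718.CL.Sep
import Pool.Agent.Y151.CL.Fnt
import Pool.Agent.Y944.CL.Ex

/-!
# Finite unions of irreducible sets with constant functions
-/

set_option autoImplicit false
set_option linter.unusedVariables false
set_option linter.unusedSectionVars false

open MvPolynomial Pool.Agent.Y718 Pool.Agent.Y718.SF Pool.Agent.Y718.CL

namespace Pool.Agent.Y718.FQ

section cp

variable {K : Type} [Field K] {O : Set K}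

/-- a finite union of irreducible sets with constant functions -/
def FCP (O : Set K) {σ : Type} (X : Set (σ → K)) : Prop :=
  ∃ 𝒴 : Set (Set (σ → K)), 𝒴.Finite ∧ (∀ Y ∈ 𝒴, CP O Y) ∧ X = ⋃₀ 𝒴

lemma CP.point {σ : Type} (x : σ → K) : CP O ({x} : Set (σ → K)) where
  ne := ⟨x, rfl⟩
  irr := by
    intro g h hgh
    rcases hgh x rfl with h1 | h1
    · exact Or.inl fun y hy => by rw [Set.mem_singleton_iff.1 hy]; exact h1
    · exact Or.inr fun y hy => by rw [Set.mem_singleton_iff.1 hy]; exact h1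
  const := by
    rintro p q - ⟨y, hy, hq⟩
    rw [Set.mem_singleton_iff.1 hy] at hq
    exact ⟨eval x p / eval x q, fun z hz => by
      rw [Set.mem_singleton_iff.1 hz, div_mul_cancel₀ _ hq]⟩

lemma CP.fcp {σ : Type} {X : Set (σ → K)} (h : CP O X) : FCP O X :=
  ⟨{X}, Set.finite_singleton X, fun Y hY => by rw [Set.mem_singleton_iff.1 hY]; exact h, by simp⟩

lemma FCP.union {σ : Type} {X Y : Set (σ → K)} (hX : FCP O X) (hY : FCP O Y) : FCP O (X ∪ Y) := by
  obtain ⟨𝒳, h1, h2, rfl⟩ := hX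
  obtain ⟨𝒴, h3, h4, rfl⟩ := hY
  refine ⟨𝒳 ∪ 𝒴, h1.union h3, fun Z hZ => ?_, (Set.sUnion_union _ _).symm⟩
  rcases hZ with hZ | hZ
  · exact h2 Z hZ
  · exact h4 Z hZ

lemma FCP.of_finite {σ : Type} {X : Set (σ → K)} (hX : X.Finite) : FCP O X := by
  refine ⟨(fun x => {x}) '' X, hX.image _, ?_, ?_⟩
  · rintro _ ⟨x, -, rfl⟩
    exact CP.point x
  · ext x
    simp

/-- reindexing -/
lemma CP.reindex {σ τ : Type} {X : Set (σ → K)} (h : CP O X) (e : σ ≃ τ) :
    CP O {x : τ → K | (fun i => x (e i)) ∈ X} := by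
  have hr : ∀ (P : MvPolynomial τ K) (x : σ → K),
      eval x (rename e.symm P) = eval (fun i => x (e.symm i)) P := by
    intro P x
    rw [eval_rename]
    rfl
  have hmem : ∀ x ∈ X, (fun i => x (e.symm i)) ∈ {x : τ → K | (fun i => x (e i)) ∈ X} := by
    intro x hx
    show (fun i => x (e.symm (e i))) ∈ X
    simpa using hx
  have hr2 : ∀ (P : MvPolynomial τ K) (x : τ → K),
      eval (fun i => x (e i)) (rename e.symm P) = eval x P := by
    intro P x
    rw [hr]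
    simp
  refine ⟨?_, ?_, ?_⟩
  · obtain ⟨x, hx⟩ := h.ne
    exact ⟨_, hmem x hx⟩
  · intro g k hgk
    rcases h.irr (rename e.symm g) (rename e.symm k) (fun x hx => by
      rw [hr, hr]
      exact hgk _ (hmem x hx)) with h1 | h1
    · exact Or.inl fun x hx => by rw [← hr2]; exact h1 _ hx
    · exact Or.inr fun x hx => by rw [← hr2]; exact h1 _ hx
  · rintro p q hpq ⟨y, hy, hq⟩
    obtain ⟨c, hc⟩ := h.const (rename e.symm p) (rename e.symm q) (fun x hx hq' => by
      rw [hr] at hq'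
      rw [hr, hr]
      exact hpq _ (hmem x hx) hq') ⟨_, hy, by rw [hr2]; exact hq⟩
    exact ⟨c, fun x hx => by rw [← hr2, ← hr2 q]; exact hc _ hx⟩

lemma FCP.reindex {σ τ : Type} {X : Set (σ → K)} (h : FCP O X) (e : σ ≃ τ) :
    FCP O {x : τ → K | (fun i => x (e i)) ∈ X} := by
  obtain ⟨𝒴, h1, h2, rfl⟩ := h
  refine ⟨(fun Y => {x : τ → K | (fun i => x (e i)) ∈ Y}) '' 𝒴, h1.image _, ?_, ?_⟩
  · rintro _ ⟨Y, hY, rfl⟩
    exact (h2 Y hY).reindex e
  · ext x
    simp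

/-- products -/
theorem FCP.pi (hPI : S_PI) {ι : Type} [Fintype ι] {σ : ι → Type} {X : ∀ i, Set (σ i → K)}
    (h : ∀ i, FCP O (X i)) : FCP O {x : (i : ι) × σ i → K | ∀ i, (fun r => x ⟨i, r⟩) ∈ X i} := by
  choose 𝒴 h1 h2 h3 using h
  refine ⟨(fun Y : ∀ i, Set (σ i → K) => {x : (i : ι) × σ i → K | ∀ i, (fun r => x ⟨i, r⟩) ∈ Y i}) ''
    Set.pi Set.univ 𝒴, (Set.Finite.pi' (t := fun i => 𝒴 i) h1 |>.subset (by
      intro Y hY i
      exact hY i (Set.mem_univ i))).image _, ?_, ?_⟩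
  · rintro _ ⟨Y, hY, rfl⟩
    exact hPI K O ι σ Y fun i => h2 i (Y i) (hY i (Set.mem_univ i))
  · ext x
    simp only [Set.mem_sUnion, Set.mem_image, exists_exists_and_eq_and]
    constructor
    · intro hx
      have h4 : ∀ i, ∃ Y ∈ 𝒴 i, (fun r => x ⟨i, r⟩) ∈ Y := by
        intro i
        have h5 : (fun r => x ⟨i, r⟩) ∈ X i := hx i
        rw [h3 i] at h5
        exact h5
      choose Y hY1 hY2 using h4
      exact ⟨Y, fun i _ => hY1 i, hY2⟩
    · rintro ⟨Y, hY1, hY2⟩ i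
      show (fun r => x ⟨i, r⟩) ∈ X i
      rw [h3 i]
      exact ⟨Y i, hY1 i (Set.mem_univ i), hY2 i⟩

/-- the values of a rational function -/
theorem FCP.values {σ : Type} {X : Set (σ → K)} (h : FCP O X) (p q : MvPolynomial σ K)
    (hpq : ∀ x ∈ X, eval x q ≠ 0 → eval x p / eval x q ∈ O) :
    {t | ∃ x ∈ X, eval x q ≠ 0 ∧ t = eval x p / eval x q}.Finite := by
  obtain ⟨𝒴, h1, h2, rfl⟩ := h
  have h3 : {t | ∃ x ∈ ⋃₀ 𝒴, eval x q ≠ 0 ∧ t = eval x p / eval x q} ⊆
      ⋃ Y ∈ 𝒴, {t | ∃ x ∈ Y, eval x q ≠ 0 ∧ t = eval x p / eval x q} := by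
    rintro t ⟨x, ⟨Y, hY, hx⟩, hq, rfl⟩
    exact Set.mem_iUnion₂.2 ⟨Y, hY, x, hx, hq, rfl⟩
  refine (h1.biUnion fun Y hY => ?_).subset h3
  by_cases hq : ∃ x ∈ Y, eval x q ≠ 0
  · obtain ⟨c, hc⟩ := (h2 Y hY).const p q (fun x hx => hpq x ⟨Y, hY, hx⟩) hq
    refine (Set.finite_singleton c).subset ?_
    rintro t ⟨x, hx, hqx, rfl⟩
    rw [Set.mem_singleton_iff, hc x hx, mul_div_cancel_right₀ _ hqx]
  · push Not at hq
    refine Set.finite_empty.subset ?_
    rintro t ⟨x, hx, hqx, -⟩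
    exact hqx (hq x hx)

end cp

section cov

variable {K : Type} [Field K] [CharZero K] {O : Set K}

/-- the affine space -/
theorem CP.univ (hM : S_MVF) (hO : Pool.Agent.TH783.CE.Flat O) {σ : Type} [Fintype σ] :
    CP O (Set.univ : Set (σ → K)) where
  ne := ⟨0, Set.mem_univ _⟩
  irr := by
    intro g h hgh
    have h1 : g * h = 0 := by
      apply MvPolynomial.funext
      intro e
      rw [map_mul, map_zero, mul_eq_zero]
      exact hgh e (Set.mem_univ e)
    rcases mul_eq_zero.1 h1 with rfl | rfl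
    · exact Or.inl fun x _ => map_zero _
    · exact Or.inr fun x _ => map_zero _
  const := by
    rintro p q hpq ⟨x, -, hx⟩
    have hq0 : q ≠ 0 := by
      rintro rfl
      exact hx (map_zero _)
    obtain ⟨c, hc⟩ := hM K O hO σ p q 1 hq0 one_ne_zero fun e he _ => hpq e (Set.mem_univ e) he
    exact ⟨c, fun y _ => by rw [hc, map_mul, eval_C]⟩

variable {n : ℕ}

/-- a polynomial which vanishes above finitely many points and not at another point -/
lemma sep_poly {E : Set (Fin n → K)} (hE : E.Finite) {x0 : Fin n ⊕ Unit → K}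
    (h : (fun j => x0 (Sum.inl j)) ∉ E) : ∃ m : MvPolynomial (Fin n ⊕ Unit) K, eval x0 m ≠ 0 ∧
      ∀ x : Fin n ⊕ Unit → K, (fun j => x (Sum.inl j)) ∈ E → eval x m = 0 := by
  classical
  have h1 : ∀ ε : Fin n → K, ε ∈ E → ∃ j, x0 (Sum.inl j) ≠ ε j := by
    intro ε hε
    by_contra hc
    push Not at hc
    apply h
    have : (fun j => x0 (Sum.inl j)) = ε := funext hc
    rwa [this]
  have h2 : ∀ ε : Fin n → K, ∃ P : MvPolynomial (Fin n ⊕ Unit) K, (ε ∈ E → eval x0 P ≠ 0) ∧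
      ∀ x : Fin n ⊕ Unit → K, (fun j => x (Sum.inl j)) = ε → eval x P = 0 := by
    intro ε
    by_cases hε : ε ∈ E
    · obtain ⟨j, hj⟩ := h1 ε hε
      refine ⟨X (Sum.inl j) - C (ε j), fun _ => ?_, fun x hx => ?_⟩
      · rw [map_sub, eval_X, eval_C]
        exact sub_ne_zero.2 hj
      · rw [map_sub, eval_X, eval_C, ← hx, sub_self]
    · exact ⟨0, fun h => absurd h hε, fun x _ => map_zero _⟩
  choose P hP1 hP2 using h2
  refine ⟨∏ ε ∈ hE.toFinset, P ε, ?_, fun x hx => ?_⟩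
  · rw [map_prod, Finset.prod_ne_zero_iff]
    exact fun ε hε => hP1 ε (hE.mem_toFinset.1 hε)
  · rw [map_prod]
    exact Finset.prod_eq_zero (hE.mem_toFinset.2 hx) (hP2 _ x rfl)

/-- the double cover without the branch divisor and without finitely many fibres -/
theorem CP.cover (hSEQ : S_SEQ) (hM : S_MVF) (hL : S_LINE) (hO : Pool.Agent.TH783.CE.Flat O)
    {f : MvPolynomial (Fin n) K} (hf : f.totalDegree ≤ 4) {E : Set (Fin n → K)} (hE : E.Finite)
    (hG : ∀ z, z ∉ E → eval z f ≠ 0 → Good f z)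
    (hne : ∃ x ∈ X0 f, (fun j => x (Sum.inl j)) ∉ E) :
    CP O {x | x ∈ X0 f ∧ (fun j => x (Sum.inl j)) ∉ E} := by
  have hG' : ∀ x ∈ X0 f, (fun j => x (Sum.inl j)) ∉ E → Good f fun j => x (Sum.inl j) := by
    intro x hx hxE
    refine hG _ hxE ?_
    rw [← (show x (Sum.inr ()) ^ 2 = _ from hx.1)]
    exact pow_ne_zero 2 hx.2
  refine ⟨hne, ?_, ?_⟩
  · intro g h hgh
    by_contra hcon
    push Not at hcon
    obtain ⟨⟨x1, hx1, hg⟩, ⟨x2, hx2, hh⟩⟩ := hcon
    obtain ⟨m, hm1, hm2⟩ := sep_poly hE hx2.2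
    have h1 := key_irr hSEQ hL hf hx1.1 (hG' x1 hx1.1 hx1.2) (g := g) (h := h * m) hg (by
      intro x hx
      by_cases hxE : (fun j => x (Sum.inl j)) ∈ E
      · right
        rw [map_mul, hm2 x hxE, mul_zero]
      · rcases hgh x ⟨hx, hxE⟩ with h2 | h2
        · exact Or.inl h2
        · right
          rw [map_mul, h2, zero_mul]) x2 hx2.1.1
    rw [map_mul, mul_eq_zero] at h1
    exact h1.elim hh hm1
  · rintro p q hpq ⟨x1, hx1, hq⟩
    obtain ⟨m, hm1, hm2⟩ := sep_poly hE hx1.2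
    obtain ⟨c, hc⟩ := key_const hSEQ hM hL hO hf hx1.1 (hG' x1 hx1.1 hx1.2) (p := p * m)
      (q := q * m) (by
        rw [map_mul]
        exact mul_ne_zero hq hm1) (by
        intro x hx hqx
        rw [map_mul, mul_ne_zero_iff] at hqx
        have hxE : (fun j => x (Sum.inl j)) ∉ E := fun h => hqx.2 (hm2 x h)
        rw [map_mul, map_mul, mul_div_mul_right _ _ hqx.2]
        exact hpq x ⟨hx, hxE⟩ hqx.1)
    refine ⟨c, fun x hx => ?_⟩
    by_contra hcon
    have h1 := key_irr hSEQ hL hf hx.1 (hG' x hx.1 hx.2) (g := p - C c * q) (h := m) (by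
      rw [map_sub, map_mul, eval_C]
      exact sub_ne_zero.2 hcon) (by
      intro y hy
      have h2 := hc y hy.1
      rw [map_mul, map_mul] at h2
      rw [map_sub, map_mul, eval_C, ← mul_eq_zero]
      linear_combination h2) x1 hx1.1.1
    exact hm1 h1

/-- finitely many points above finitely many points -/
lemma fin_above (f : MvPolynomial (Fin n) K) {E : Set (Fin n → K)} (hE : E.Finite) :
    {x | x ∈ X0 f ∧ (fun j => x (Sum.inl j)) ∈ E}.Finite := by
  have h1 : {x | x ∈ X0 f ∧ (fun j => x (Sum.inl j)) ∈ E} ⊆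
      ⋃ ε ∈ E, (fun w : K => Sum.elim ε fun _ : Unit => w) '' {w : K | w ^ 2 = eval ε f} := by
    rintro x ⟨hx, hxE⟩
    refine Set.mem_iUnion₂.2 ⟨_, hxE, x (Sum.inr ()), hx.1, ?_⟩
    funext v
    rcases v with v | v <;> rfl
  classical
  refine (hE.biUnion fun ε _ => Set.Finite.image _ ?_).subset h1
  have h2 : (Polynomial.X ^ 2 - Polynomial.C (eval ε f) : Polynomial K) ≠ 0 :=
    Polynomial.X_pow_sub_C_ne_zero (by norm_num) _
  refine ((Polynomial.X ^ 2 - Polynomial.C (eval ε f) : Polynomial K).roots.toFinset.finite_toSet).subset ?_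
  intro w hw
  rw [Finset.mem_coe, Multiset.mem_toFinset, Polynomial.mem_roots h2, Polynomial.IsRoot,
    Polynomial.eval_sub, Polynomial.eval_pow, Polynomial.eval_X, Polynomial.eval_C, sub_eq_zero]
  exact hw

/-- the double cover without the branch divisor -/
theorem FCP.cover (hSEQ : S_SEQ) (hM : S_MVF) (hL : S_LINE) (hO : Pool.Agent.TH783.CE.Flat O)
    {f : MvPolynomial (Fin n) K} (hf : f.totalDegree ≤ 4) {E : Set (Fin n → K)} (hE : E.Finite)
    (hG : ∀ z, z ∉ E → eval z f ≠ 0 → Good f z) : FCP O (X0 f) := by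
  have h1 : X0 f = {x | x ∈ X0 f ∧ (fun j => x (Sum.inl j)) ∉ E} ∪
      {x | x ∈ X0 f ∧ (fun j => x (Sum.inl j)) ∈ E} := by
    ext x
    by_cases h : (fun j => x (Sum.inl j)) ∈ E <;> simp [h]
  rw [h1]
  refine FCP.union ?_ (FCP.of_finite (fin_above f hE))
  by_cases hne : ∃ x ∈ X0 f, (fun j => x (Sum.inl j)) ∉ E
  · exact (CP.cover hSEQ hM hL hO hf hE hG hne).fcp
  · refine FCP.of_finite (Set.finite_empty.subset ?_)
    rintro x ⟨hx, hxE⟩
    exact hne ⟨x, hx, hxE⟩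

end cov

end Pool.Agent.Y718.FQ
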