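import Pool.Agent.Y718.FQ.Stm

/-!
# Rational functions on a double cover with values in a flat set
-/

set_option autoImplicit false
set_option linter.unusedVariables false
set_option linter.unusedSectionVars false

open MvPolynomial Pool.Agent.Y718 Pool.Agent.Y718.SF Pool.Agent.Y718.CL

namespace Pool.Agent.Y718.FQ

section spec

variable {K : Type} [Field K] [CharZero K] {κ : Type} [Fintype κ]

lemma alg_ne {v : MvPolynomial κ K} (hv : v ≠ 0) :
    algebraMap (MvPolynomial κ K) (FractionRing (MvPolynomial κ K)) v ≠ 0 := fun h =>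
  hv ((map_eq_zero_iff _ (IsFractionRing.injective _ _)).1 h)

/-- an element of the rational function field is regular outside a hypersurface -/
lemma rs_spec (z : FractionRing (MvPolynomial κ K)) : ∃ v : MvPolynomial κ K, v ≠ 0 ∧
    ∀ e : κ → K, eval e v ≠ 0 → ∃ r, Rs (eval e : MvPolynomial κ K →+* K) z r := by
  obtain ⟨u, v, hv, rfl⟩ := IsFractionRing.div_surjective (A := MvPolynomial κ K) z
  have hv0 : v ≠ 0 := nonZeroDivisors.ne_zero hv
  exact ⟨v, hv0, fun e he => ⟨eval e u / eval e v, u, v, he, div_mul_cancel₀ _ (alg_ne hv0),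
    div_mul_cancel₀ _ he⟩⟩

/-- finitely many elements -/
lemma rs_spec_fin {τ : Type} [Fintype τ] (z : τ → FractionRing (MvPolynomial κ K)) :
    ∃ v : MvPolynomial κ K, v ≠ 0 ∧ ∀ e : κ → K, eval e v ≠ 0 →
      ∃ r : τ → K, ∀ i, Rs (eval e : MvPolynomial κ K →+* K) (z i) (r i) := by
  classical
  choose v hv0 hv using fun i => rs_spec (z i)
  refine ⟨∏ i, v i, Finset.prod_ne_zero_iff.2 fun i _ => hv0 i, fun e he => ?_⟩
  have h1 : ∀ i, eval e (v i) ≠ 0 := by
    intro i h0
    apply he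
    rw [map_prod]
    exact Finset.prod_eq_zero (Finset.mem_univ i) h0
  choose r hr using fun i => hv i e (h1 i)
  exact ⟨r, hr⟩

/-- an element which specializes to zero is zero -/
lemma zero_of_spec {z : FractionRing (MvPolynomial κ K)} {g : MvPolynomial κ K} (hg : g ≠ 0)
    (h : ∀ e : κ → K, eval e g ≠ 0 → Rs (eval e : MvPolynomial κ K →+* K) z 0) : z = 0 := by
  obtain ⟨u, v, hv, rfl⟩ := IsFractionRing.div_surjective (A := MvPolynomial κ K) z
  have hv0 : v ≠ 0 := nonZeroDivisors.ne_zero hv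
  have h1 : u * (v * g) = 0 := by
    apply MvPolynomial.funext
    intro e
    rw [map_mul, map_mul, map_zero]
    by_cases hge : eval e g = 0
    · rw [hge]; ring
    by_cases hve : eval e v = 0
    · rw [hve]; ring
    have h2 : Rs (eval e : MvPolynomial κ K →+* K) (algebraMap _ _ u / algebraMap _ _ v)
        (eval e u / eval e v) := (Rs.base _ u).div (Rs.base _ v) hve
    have h3 := h2.unique (h e hge)
    rw [div_eq_zero_iff] at h3
    rw [h3.resolve_right hve, zero_mul]
  have h2 : u = 0 := (mul_eq_zero.1 h1).resolve_right (mul_ne_zero hv0 hg)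
  rw [h2, map_zero, zero_div]

lemma val_eq {k σ : Type} [Field k] (φ : MvPolynomial κ K →+* k) (x : σ → K)
    (P : MvPolynomial σ K) :
    P.eval₂ (φ.comp (algebraMap K (MvPolynomial κ K))) (fun v => φ (C (x v))) =
      φ (C (eval x P)) := by
  induction P using MvPolynomial.induction_on with
  | C c => simp
  | add p q hp hq => rw [eval₂_add, hp, hq, map_add, map_add, map_add]
  | mul_X p j hp => rw [eval₂_mul, eval₂_X, hp, map_mul, map_mul, map_mul, eval_X]

lemma val_spec {σ : Type} (e : κ → K) (x : σ → K) (P : MvPolynomial σ K) :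
    P.eval₂ ((eval e : MvPolynomial κ K →+* K).comp (algebraMap K (MvPolynomial κ K))) x =
      eval x P := by
  have h : (eval e : MvPolynomial κ K →+* K).comp (algebraMap K (MvPolynomial κ K)) =
      RingHom.id K := by
    ext c
    simp
  rw [h]
  rfl

end spec

section gen

variable {K : Type} [Field K] [CharZero K] {n : ℕ}

/-- a point at which the difference is generic -/
def Good (f : MvPolynomial (Fin n) K) (z : Fin n → K) : Prop :=
  gB (g0 f z) ≠ 0 ∧ ¬ gB (g0 f z) ∣ SF.gT (g0 f z) ∧ ∃ V : Fin n → K, X.Db (lg f z V) ≠ 0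

/-- the points over `K` -/
def XK (f : MvPolynomial (Fin n) K) : Set (Fin n ⊕ Unit → K) :=
  {x | x (Sum.inr ()) ^ 2 = eval (fun j => x (Sum.inl j)) f}

/-- the points off the branch divisor -/
def X0 (f : MvPolynomial (Fin n) K) : Set (Fin n ⊕ Unit → K) :=
  {x | x ∈ XK f ∧ x (Sum.inr ()) ≠ 0}

/-- the equation of the double cover -/
noncomputable def eqn (f : MvPolynomial (Fin n) K) : MvPolynomial (Fin n ⊕ Unit) K :=
  X (Sum.inr ()) ^ 2 - rename Sum.inl f

lemma eqn_eval (f : MvPolynomial (Fin n) K) (x : Fin n ⊕ Unit → K) :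
    eval x (eqn f) = x (Sum.inr ()) ^ 2 - eval (fun j => x (Sum.inl j)) f := by
  rw [eqn, map_sub, map_pow, eval_X, eval_rename]
  rfl

/-- the generic point with parameters `s`, `w` -/
noncomputable def pt (z0 : Fin n → K) (s w : FractionRing (MvPolynomial (Fin n) K)) :
    Fin n ⊕ Unit → FractionRing (MvPolynomial (Fin n) K) :=
  Sum.elim (fun j => algebraMap (MvPolynomial (Fin n) K)
      (FractionRing (MvPolynomial (Fin n) K)) (C (z0 j)) + s * algebraMap (MvPolynomial (Fin n) K)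
      (FractionRing (MvPolynomial (Fin n) K)) (X j)) (fun _ => w)

lemma g0_aeval (f : MvPolynomial (Fin n) K) (z0 : Fin n → K)
    (s : FractionRing (MvPolynomial (Fin n) K)) :
    ((g0 f z0).map (algebraMap (MvPolynomial (Fin n) K)
      (FractionRing (MvPolynomial (Fin n) K)))).eval s =
    aeval (fun j => algebraMap (MvPolynomial (Fin n) K)
      (FractionRing (MvPolynomial (Fin n) K)) (C (z0 j)) + s * algebraMap (MvPolynomial (Fin n) K)
      (FractionRing (MvPolynomial (Fin n) K)) (X j)) f := by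
  rw [g0, ← lg_map, lg_eval, MvPolynomial.map_map]
  have h1 : (algebraMap (MvPolynomial (Fin n) K) (FractionRing (MvPolynomial (Fin n) K))).comp
      (C : K →+* MvPolynomial (Fin n) K) = algebraMap K (FractionRing (MvPolynomial (Fin n) K)) := by
    rw [IsScalarTower.algebraMap_eq K (MvPolynomial (Fin n) K)
      (FractionRing (MvPolynomial (Fin n) K))]
    rfl
  rw [h1, eval_map]
  rfl

/-- the generic points -/
lemma gen_pts (hSEQ : S_SEQ) {f : MvPolynomial (Fin n) K} (hf : f.totalDegree ≤ 4)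
    {z0 : Fin n → K} {y : K} (hy : y ≠ 0) (hP : y ^ 2 = eval z0 f) (hG : Good f z0) :
    ∃ (k : Type) (_ : Field k) (φ : MvPolynomial (Fin n) K →+* k)
      (s w : ℕ → FractionRing (MvPolynomial (Fin n) K)), Function.Injective s ∧
      ∀ i, w i ^ 2 = ((g0 f z0).map (algebraMap (MvPolynomial (Fin n) K)
          (FractionRing (MvPolynomial (Fin n) K)))).eval (s i) ∧
        Rs φ (s i) 0 ∧ Rs φ (w i) (φ (C y)) := by
  obtain ⟨h1, h2, -⟩ := hG
  have hq0 : (g0 f z0).coeff 0 = C y ^ 2 := by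
    apply MvPolynomial.funext
    intro e
    have e1 := congrArg (fun P => Polynomial.coeff P 0) (g0_eval f z0 e)
    simp only [Polynomial.coeff_map] at e1
    rw [e1, Polynomial.coeff_zero_eq_eval_zero, lg_eval, zero_smul, add_zero, ← hP, map_pow, eval_C]
  have hdeg : (g0 f z0).natDegree < 5 := by
    refine Nat.lt_succ_of_le ((lg_natDegree _ _ _).trans (le_trans ?_ hf))
    exact Finset.sup_mono (support_map_subset _ _)
  have hB : gB (g0 f z0) = (g0 f z0).coeff 1 ^ 3 - 4 * algebraMap K (MvPolynomial (Fin n) K) y ^ 2 *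
      (g0 f z0).coeff 1 * (g0 f z0).coeff 2 +
      8 * (algebraMap K (MvPolynomial (Fin n) K) y ^ 2) ^ 2 * (g0 f z0).coeff 3 := by
    rw [gB, hq0]
    rfl
  have hT : SF.gT (g0 f z0) = ((g0 f z0).coeff 1 ^ 2 - 4 *
      algebraMap K (MvPolynomial (Fin n) K) y ^ 2 * (g0 f z0).coeff 2) ^ 2 -
      64 * (algebraMap K (MvPolynomial (Fin n) K) y ^ 2) ^ 3 * (g0 f z0).coeff 4 := by
    rw [SF.gT, hq0]
    rfl
  rw [hB] at h1 h2
  rw [hT] at h2
  obtain ⟨k, _, φ, s, w, hs, h3⟩ := hSEQ K (MvPolynomial (Fin n) K) y _ _ _ _ hy h1 h2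
  refine ⟨k, inferInstance, φ, s, w, hs, fun i => ?_⟩
  obtain ⟨h4, h5, h6⟩ := h3 i
  refine ⟨?_, h5, h6⟩
  rw [h4, Polynomial.eval_map, Polynomial.eval₂_eq_sum_range' _ hdeg]
  simp only [Finset.sum_range_succ, Finset.sum_range_zero, hq0]
  rw [show algebraMap K (MvPolynomial (Fin n) K) y = C y from rfl, map_pow]
  ring

lemma pt_eqn {f : MvPolynomial (Fin n) K} {z0 : Fin n → K}
    {s w : FractionRing (MvPolynomial (Fin n) K)}
    (h : w ^ 2 = ((g0 f z0).map (algebraMap (MvPolynomial (Fin n) K)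
          (FractionRing (MvPolynomial (Fin n) K)))).eval s) :
    aeval (pt z0 s w) (eqn f) = 0 := by
  rw [eqn, map_sub, map_pow, aeval_X, aeval_rename]
  rw [g0_aeval] at h
  show w ^ 2 - _ = 0
  rw [h, sub_eq_zero]
  rfl

/-- the value at the place -/
lemma pt_place {k : Type} [Field k] {φ : MvPolynomial (Fin n) K →+* k} {z0 : Fin n → K} {y : K}
    {s w : FractionRing (MvPolynomial (Fin n) K)} (hs : Rs φ s 0) (hw : Rs φ w (φ (C y)))
    (P : MvPolynomial (Fin n ⊕ Unit) K) :
    Rs φ (aeval (pt z0 s w) P) (φ (C (eval (Sum.elim z0 fun _ => y) P))) := by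
  rw [← val_eq]
  refine Rs.aeval (fun i => ?_) P
  rcases i with j | u
  · have h := (Rs.base φ (C (z0 j))).add (hs.mul (Rs.base φ (X j : MvPolynomial (Fin n) K)))
    rw [zero_mul, add_zero] at h
    exact h
  · exact hw

/-- specialization of the generic point -/
lemma pt_spec {f : MvPolynomial (Fin n) K} {z0 : Fin n → K}
    {s w : FractionRing (MvPolynomial (Fin n) K)} (hw0 : w ≠ 0)
    (h : w ^ 2 = ((g0 f z0).map (algebraMap (MvPolynomial (Fin n) K)
          (FractionRing (MvPolynomial (Fin n) K)))).eval s) :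
    ∃ g : MvPolynomial (Fin n) K, g ≠ 0 ∧ ∀ e : Fin n → K, eval e g ≠ 0 →
      ∃ x ∈ X0 f, ∀ P : MvPolynomial (Fin n ⊕ Unit) K,
        Rs (eval e : MvPolynomial (Fin n) K →+* K) (aeval (pt z0 s w) P) (eval x P) := by
  obtain ⟨v, hv0, hv⟩ := rs_spec_fin (pt z0 s w)
  obtain ⟨v', hv0', hv'⟩ := rs_spec w⁻¹
  refine ⟨v * v', mul_ne_zero hv0 hv0', fun e he => ?_⟩
  rw [map_mul, mul_ne_zero_iff] at he
  obtain ⟨x, hx⟩ := hv e he.1
  obtain ⟨r, hr⟩ := hv' e he.2
  have hP : ∀ P : MvPolynomial (Fin n ⊕ Unit) K,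
      Rs (eval e : MvPolynomial (Fin n) K →+* K) (aeval (pt z0 s w) P) (eval x P) := by
    intro P
    have := Rs.aeval (K := K) hx P
    rwa [val_spec] at this
  refine ⟨x, ⟨?_, ?_⟩, hP⟩
  · have h1 := hP (eqn f)
    rw [pt_eqn h, eqn_eval] at h1
    have h2 : Rs (eval e : MvPolynomial (Fin n) K →+* K) (0 : FractionRing (MvPolynomial (Fin n) K)) 0 := by
      simpa using Rs.base (eval e : MvPolynomial (Fin n) K →+* K) 0
    exact sub_eq_zero.1 (h1.unique h2)
  · have h1 : Rs (eval e : MvPolynomial (Fin n) K →+* K) (w * w⁻¹) (x (Sum.inr ()) * r) :=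
      (hx (Sum.inr ())).mul hr
    rw [mul_inv_cancel₀ hw0] at h1
    have h2 : Rs (eval e : MvPolynomial (Fin n) K →+* K) (1 : FractionRing (MvPolynomial (Fin n) K)) 1 := by
      simpa using Rs.base (eval e : MvPolynomial (Fin n) K →+* K) 1
    have h3 := h1.unique h2
    intro h0
    rw [h0, zero_mul] at h3
    exact zero_ne_one h3

lemma phi_ne {k : Type} [Field k] (φ : MvPolynomial (Fin n) K →+* k) {c : K} (hc : c ≠ 0) :
    φ (C c) ≠ 0 := by
  intro h
  exact hc ((map_eq_zero (φ.comp C)).1 h)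

/-- **Irreducibility.** -/
theorem key_irr (hSEQ : S_SEQ) (hL : S_LINE) {f : MvPolynomial (Fin n) K}
    (hf : f.totalDegree ≤ 4) {x0 : Fin n ⊕ Unit → K} (hx0 : x0 ∈ X0 f)
    (hG : Good f fun j => x0 (Sum.inl j)) {g h : MvPolynomial (Fin n ⊕ Unit) K}
    (hg : eval x0 g ≠ 0) (hgh : ∀ x ∈ X0 f, eval x g = 0 ∨ eval x h = 0) :
    ∀ x ∈ XK f, eval x h = 0 := by
  obtain ⟨hx1, hx2⟩ := hx0
  obtain ⟨k, _, φ, s, w, hs, h3⟩ := gen_pts hSEQ hf hx2 hx1 hG
  have hx0e : x0 = Sum.elim (fun j => x0 (Sum.inl j)) (fun _ => x0 (Sum.inr ())) := by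
    funext v
    rcases v with v | v <;> rfl
  have h4 : ∀ i, aeval (pt (fun j => x0 (Sum.inl j)) (s i) (w i)) h = 0 := by
    intro i
    obtain ⟨a1, a2, a3⟩ := h3 i
    have hw0 : w i ≠ 0 := a3.ne_zero (phi_ne φ hx2)
    obtain ⟨v, hv0, hv⟩ := pt_spec hw0 a1
    have h5 : aeval (pt (fun j => x0 (Sum.inl j)) (s i) (w i)) (g * h) = 0 := by
      refine zero_of_spec hv0 fun e he => ?_
      obtain ⟨x, hx, hx'⟩ := hv e he
      have h6 := hx' (g * h)
      have h7 : eval x (g * h) = 0 := by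
        rw [map_mul, mul_eq_zero]
        exact hgh x hx
      rwa [h7] at h6
    rw [map_mul] at h5
    refine (mul_eq_zero.1 h5).resolve_left ?_
    have h6 := pt_place (z0 := fun j => x0 (Sum.inl j)) a2 a3 g
    rw [← hx0e] at h6
    exact h6.ne_zero (phi_ne φ hg)
  intro x hx
  have h5 := hL K n f hf _ hG.2.2 s w hs (fun i => (h3 i).1) h h4 (fun j => x (Sum.inl j))
    (x (Sum.inr ())) hx
  have hxe : x = Sum.elim (fun j => x (Sum.inl j)) (fun _ => x (Sum.inr ())) := by
    funext v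
    rcases v with v | v <;> rfl
  rw [hxe]
  exact h5

/-- **Rational functions with values in a flat set are constant.** -/
theorem key_const (hSEQ : S_SEQ) (hM : S_MVF) (hL : S_LINE) {O : Set K}
    (hO : Pool.Agent.TH783.CE.Flat O) {f : MvPolynomial (Fin n) K}
    (hf : f.totalDegree ≤ 4) {x0 : Fin n ⊕ Unit → K} (hx0 : x0 ∈ X0 f)
    (hG : Good f fun j => x0 (Sum.inl j)) {p q : MvPolynomial (Fin n ⊕ Unit) K}
    (hq : eval x0 q ≠ 0) (hpq : ∀ x ∈ X0 f, eval x q ≠ 0 → eval x p / eval x q ∈ O) :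
    ∃ c, ∀ x ∈ XK f, eval x p = c * eval x q := by
  obtain ⟨hx1, hx2⟩ := hx0
  obtain ⟨k, _, φ, s, w, hs, h3⟩ := gen_pts hSEQ hf hx2 hx1 hG
  have hx0e : x0 = Sum.elim (fun j => x0 (Sum.inl j)) (fun _ => x0 (Sum.inr ())) := by
    funext v
    rcases v with v | v <;> rfl
  have hpl : ∀ i (P : MvPolynomial (Fin n ⊕ Unit) K),
      Rs φ (aeval (pt (fun j => x0 (Sum.inl j)) (s i) (w i)) P) (φ (C (eval x0 P))) := by
    intro i P
    have h6 := pt_place (z0 := fun j => x0 (Sum.inl j)) (h3 i).2.1 (h3 i).2.2 P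
    rwa [← hx0e] at h6
  have h4 : ∀ i, aeval (pt (fun j => x0 (Sum.inl j)) (s i) (w i))
      (p - C (eval x0 p / eval x0 q) * q) = 0 := by
    intro i
    obtain ⟨a1, a2, a3⟩ := h3 i
    have hw0 : w i ≠ 0 := a3.ne_zero (phi_ne φ hx2)
    obtain ⟨g, hg0, hg⟩ := pt_spec hw0 a1
    set pF := aeval (pt (fun j => x0 (Sum.inl j)) (s i) (w i)) p with hpF
    set qF := aeval (pt (fun j => x0 (Sum.inl j)) (s i) (w i)) q with hqF
    have hqF0 : qF ≠ 0 := (hpl i q).ne_zero (phi_ne φ hq)
    obtain ⟨g', hg0', hg'⟩ := rs_spec qF⁻¹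
    obtain ⟨u, v, hv, huv⟩ := IsFractionRing.div_surjective (A := MvPolynomial (Fin n) K) (pF / qF)
    have hv0 : v ≠ 0 := nonZeroDivisors.ne_zero hv
    obtain ⟨c, hc⟩ := hM K O hO (Fin n) u v (g * g') hv0 (mul_ne_zero hg0 hg0') (by
      intro e he1 he2
      rw [map_mul, mul_ne_zero_iff] at he2
      obtain ⟨x, hx, hx'⟩ := hg e he2.1
      obtain ⟨r, hr⟩ := hg' e he2.2
      have k1 := hx' q
      have k2 := k1.mul hr
      rw [← hqF, mul_inv_cancel₀ hqF0] at k2
      have k3 : Rs (eval e : MvPolynomial (Fin n) K →+* K)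
          (1 : FractionRing (MvPolynomial (Fin n) K)) 1 := by
        simpa using Rs.base (eval e : MvPolynomial (Fin n) K →+* K) 1
      have k4 := k2.unique k3
      have hqx : eval x q ≠ 0 := by
        intro h0
        rw [h0, zero_mul] at k4
        exact zero_ne_one k4
      have k5 : Rs (eval e : MvPolynomial (Fin n) K →+* K) (pF / qF) (eval x p / eval x q) :=
        (hx' p).div k1 hqx
      have k6 : Rs (eval e : MvPolynomial (Fin n) K →+* K) (pF / qF) (eval e u / eval e v) := by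
        rw [← huv]
        exact (Rs.base _ u).div (Rs.base _ v) he1
      rw [k6.unique k5]
      exact hpq x hx hqx)
    have h5 : pF / qF = algebraMap (MvPolynomial (Fin n) K)
        (FractionRing (MvPolynomial (Fin n) K)) (C c) := by
      rw [← huv, hc, map_mul, mul_div_cancel_right₀ _ (alg_ne hv0)]
    have h6 : Rs φ (pF / qF) (φ (C (eval x0 p)) / φ (C (eval x0 q))) :=
      (hpl i p).div (hpl i q) (phi_ne φ hq)
    rw [h5] at h6
    have h7 := (Rs.base φ (C c)).unique h6
    have h8 : c = eval x0 p / eval x0 q := by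
      have h9 : (φ.comp C) c = (φ.comp C) (eval x0 p / eval x0 q) := by
        rw [map_div₀]
        exact h7
      exact (φ.comp C).injective h9
    rw [map_sub, map_mul, ← hpF, ← hqF, ← h8, aeval_C, sub_eq_zero]
    rw [div_eq_iff hqF0] at h5
    rw [h5]
    rfl
  refine ⟨eval x0 p / eval x0 q, fun x hx => ?_⟩
  have h5 := hL K n f hf _ hG.2.2 s w hs (fun i => (h3 i).1) _ h4 (fun j => x (Sum.inl j))
    (x (Sum.inr ())) hx
  have hxe : x = Sum.elim (fun j => x (Sum.inl j)) (fun _ => x (Sum.inr ())) := by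
    funext v
    rcases v with v | v <;> rfl
  rw [hxe]
  rw [map_sub, map_mul, eval_C, sub_eq_zero] at h5
  exact h5

end gen

end Pool.Agent.Y718.FQ
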