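import Pool.Agent.Y718.FQ.Cov

/-!
# Smooth quartic double covers
-/

set_option autoImplicit false
set_option linter.unusedVariables false
set_option linter.unusedSectionVars false

open MvPolynomial Pool.Agent.Y718 Pool.Agent.Y718.SF Pool.Agent.Y718.CL Pool.Agent.Y720.MZ

namespace Pool.Agent.Y718.FQ

variable {K : Type} [Field K] [CharZero K] {n : ℕ}

lemma Db_shift {F : MvPolynomial (Fin (n + 1)) K} (hF : F.IsHomogeneous 4)
    (Z U : Fin (n + 1) → K) (l : K) :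
    X.Db (lg F Z (U + l • Z)) = X.Db (lg F Z U) := by
  obtain ⟨h0, h1, h2, h3, h4⟩ := shift_coeff hF Z U l
  rw [X.Db_dc, X.Db_dc, h0, h1, h2, h3, h4, X.dc_rev, X.dc_rev ((lg F Z U).coeff 0),
    ← dc_shift l ((lg F Z U).coeff 4)]

/-- a smooth quartic double cover without the branch divisor -/
theorem FCP.smooth (hSEQ : S_SEQ) (hM : S_MVF) (hL : S_LINE) (hBD : S_BD) {O : Set K}
    (hO : Pool.Agent.TH783.CE.Flat O) (φ : K →+* ℂ) (hn : 2 ≤ n)
    {F : MvPolynomial (Fin (n + 1)) K} (hF : F.IsHomogeneous 4)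
    (hsm : ∀ y : Fin (n + 1) → AlgebraicClosure K, (∀ i, aeval y (pderiv i F) = 0) → y = 0) :
    FCP O (X0 (dh F 0)) := by
  have hs : Smooth (MvPolynomial.map φ F) := Pool.Agent.Y362.CL.smt K (n + 1) F hsm φ
  have h0 : S_EX0 := Pool.Agent.Y944.CL.ex0 Pool.Agent.Y151.CL.loc'
  have h1 : S_EX1 := Pool.Agent.Y944.CL.ex1 Pool.Agent.Y151.CL.loc'
  refine FCP.cover hSEQ hM hL hO (dh_degree hF 0) (bad_fin h0 h1 φ hn hF hs 0) ?_
  intro z hz hfz
  rw [dh_eval] at hfz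
  have hb : ¬ Bad F (ic 0 1 z) := fun h => hz ⟨hfz, h⟩
  have h2 := mt (hBD K n F hF 0 z) hb
  rw [not_or] at h2
  refine ⟨h2.1, h2.2, ?_⟩
  obtain ⟨e, he⟩ := exists_Tq Pool.Agent.Y718.CL.Sep.sep φ (by omega) hF hs hfz
  rw [Tq_Db, ic_split 0 z e, Db_shift hF] at he
  exact ⟨_, by rw [dh_lg]; exact he⟩

/-- the coordinates `w, z₁, …, z_n` -/
def ixe (n : ℕ) : Fin n ⊕ Unit ≃ Fin (n + 1) where
  toFun := Sum.elim Fin.succ fun _ => 0
  invFun := Fin.cases (Sum.inr ()) Sum.inl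
  left_inv := by
    rintro (j | u)
    · simp
    · rfl
  right_inv := by
    intro i
    refine Fin.cases ?_ (fun j => ?_) i
    · rfl
    · simp

/-- The points `(w, z₁, …, z_n)` with `w² = F(1, z₁, …, z_n)` and `w ≠ 0`. -/
def Pts (F : MvPolynomial (Fin (n + 1)) K) : Set (Fin (n + 1) → K) :=
  {y | y 0 ^ 2 = eval (Function.update y 0 1) F ∧ y 0 ≠ 0}

theorem FCP.pts (hSEQ : S_SEQ) (hM : S_MVF) (hL : S_LINE) (hBD : S_BD) {O : Set K}
    (hO : Pool.Agent.TH783.CE.Flat O) (φ : K →+* ℂ) (hn : 2 ≤ n)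
    {F : MvPolynomial (Fin (n + 1)) K} (hF : F.IsHomogeneous 4)
    (hsm : ∀ y : Fin (n + 1) → AlgebraicClosure K, (∀ i, aeval y (pderiv i F) = 0) → y = 0) :
    FCP O (Pts F) := by
  have h1 := (FCP.smooth hSEQ hM hL hBD hO φ hn hF hsm).reindex (ixe n)
  have h2 : {x : Fin (n + 1) → K | (fun i => x (ixe n i)) ∈ X0 (dh F 0)} = Pts F := by
    ext x
    have e1 : eval (fun j => x (ixe n (Sum.inl j))) (dh F 0) = eval (Function.update x 0 1) F := by
      rw [dh_eval]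
      congr 1
      congr 1
      apply ic_ext 0
      · rw [ic_same, Function.update_self]
      · intro j
        rw [ic_above, Function.update_of_ne (by simp)]
        rfl
    show (x (ixe n (Sum.inr ())) ^ 2 = _ ∧ _) ↔ _
    rw [e1]
    rfl
  rw [h2] at h1
  exact h1

end Pool.Agent.Y718.FQ
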