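import Pool.Agent.Y718.CL.Bad
import Pool.Agent.TH783.CE.Flat

/-!
# Project FQ (helper718): flat sets and smooth quartic double covers

Places of the fraction field of a ring, and the exact statements of the jobs.
-/

set_option autoImplicit false

open MvPolynomial Pool.Agent.Y718 Pool.Agent.Y718.SF

namespace Pool.Agent.Y718.FQ

section rs

variable {A k : Type} [CommRing A] [IsDomain A] [Field k]

/-- The element `z` of the fraction field of `A` is regular at the place given by the ring
homomorphism `φ` from `A` to a field, and its value is `r`. -/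
def Rs (φ : A →+* k) (z : FractionRing A) (r : k) : Prop :=
  ∃ u v : A, φ v ≠ 0 ∧ z * algebraMap A (FractionRing A) v = algebraMap A (FractionRing A) u ∧
    r * φ v = φ u

variable {φ : A →+* k}

lemma Rs.base (φ : A →+* k) (a : A) : Rs φ (algebraMap A (FractionRing A) a) (φ a) :=
  ⟨a, 1, by simp, by simp, by simp⟩

lemma Rs.add {z z' : FractionRing A} {r r' : k} (h : Rs φ z r) (h' : Rs φ z' r') :
    Rs φ (z + z') (r + r') := by
  obtain ⟨u, v, h1, h2, h3⟩ := h
  obtain ⟨u', v', h1', h2', h3'⟩ := h'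
  refine ⟨u * v' + u' * v, v * v', ?_, ?_, ?_⟩
  · rw [map_mul]
    exact mul_ne_zero h1 h1'
  · simp only [map_add, map_mul]
    linear_combination algebraMap A (FractionRing A) v' * h2 + algebraMap A (FractionRing A) v * h2'
  · simp only [map_add, map_mul]
    linear_combination φ v' * h3 + φ v * h3'

lemma Rs.mul {z z' : FractionRing A} {r r' : k} (h : Rs φ z r) (h' : Rs φ z' r') :
    Rs φ (z * z') (r * r') := by
  obtain ⟨u, v, h1, h2, h3⟩ := h
  obtain ⟨u', v', h1', h2', h3'⟩ := h'
  refine ⟨u * u', v * v', ?_, ?_, ?_⟩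
  · rw [map_mul]
    exact mul_ne_zero h1 h1'
  · simp only [map_mul]
    linear_combination z' * algebraMap A (FractionRing A) v' * h2 +
      algebraMap A (FractionRing A) u * h2'
  · simp only [map_mul]
    linear_combination r' * φ v' * h3 + φ u * h3'

lemma Rs.neg {z : FractionRing A} {r : k} (h : Rs φ z r) : Rs φ (-z) (-r) := by
  obtain ⟨u, v, h1, h2, h3⟩ := h
  exact ⟨-u, v, h1, by rw [map_neg, ← h2]; ring, by rw [map_neg, ← h3]; ring⟩

lemma Rs.sub {z z' : FractionRing A} {r r' : k} (h : Rs φ z r) (h' : Rs φ z' r') :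
    Rs φ (z - z') (r - r') := by
  rw [sub_eq_add_neg, sub_eq_add_neg]
  exact h.add h'.neg

lemma Rs.pow {z : FractionRing A} {r : k} (h : Rs φ z r) (n : ℕ) : Rs φ (z ^ n) (r ^ n) := by
  induction n with
  | zero => simpa using Rs.base φ 1
  | succ n ih => rw [pow_succ, pow_succ]; exact ih.mul h

lemma Rs.inv {z : FractionRing A} {r : k} (h : Rs φ z r) (hr : r ≠ 0) : Rs φ z⁻¹ r⁻¹ := by
  obtain ⟨u, v, h1, h2, h3⟩ := h
  have hu : φ u ≠ 0 := by
    rw [← h3]
    exact mul_ne_zero hr h1
  have hu0 : algebraMap A (FractionRing A) u ≠ 0 := by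
    intro h0
    apply hu
    rw [(map_eq_zero_iff _ (IsFractionRing.injective A (FractionRing A))).1 h0, map_zero]
  have hz : z ≠ 0 := by
    rintro rfl
    rw [zero_mul] at h2
    exact hu0 h2.symm
  refine ⟨v, u, hu, ?_, ?_⟩
  · rw [← h2]
    field_simp
  · rw [← h3]
    field_simp

lemma Rs.div {z z' : FractionRing A} {r r' : k} (h : Rs φ z r) (h' : Rs φ z' r') (hr : r' ≠ 0) :
    Rs φ (z / z') (r / r') := by
  rw [div_eq_mul_inv, div_eq_mul_inv]
  exact h.mul (h'.inv hr)

/-- the value is unique -/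
lemma Rs.unique {z : FractionRing A} {r r' : k} (h : Rs φ z r) (h' : Rs φ z r') : r = r' := by
  obtain ⟨u, v, h1, h2, h3⟩ := h
  obtain ⟨u', v', h1', h2', h3'⟩ := h'
  have h4 : algebraMap A (FractionRing A) (u * v') = algebraMap A (FractionRing A) (u' * v) := by
    rw [map_mul, map_mul, ← h2, ← h2']
    ring
  have h5 := IsFractionRing.injective A (FractionRing A) h4
  have h6 := congrArg φ h5
  rw [map_mul, map_mul, ← h3, ← h3'] at h6
  have h7 : (r - r') * (φ v * φ v') = 0 := by linear_combination h6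
  exact sub_eq_zero.1 ((mul_eq_zero.1 h7).resolve_right (mul_ne_zero h1 h1'))

lemma Rs.ne_zero {z : FractionRing A} {r : k} (h : Rs φ z r) (hr : r ≠ 0) : z ≠ 0 := by
  rintro rfl
  have h0 : Rs φ (0 : FractionRing A) (0 : k) := by simpa using Rs.base φ 0
  exact hr (h.unique h0)

/-- values of polynomial expressions -/
lemma Rs.aeval {K σ : Type} [Field K] [Algebra K A] {z : σ → FractionRing A} {r : σ → k}
    (h : ∀ i, Rs φ (z i) (r i)) (P : MvPolynomial σ K) :
    Rs φ (MvPolynomial.aeval z P) (P.eval₂ (φ.comp (algebraMap K A)) r) := by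
  induction P using MvPolynomial.induction_on with
  | C c =>
    rw [MvPolynomial.aeval_C, MvPolynomial.eval₂_C, IsScalarTower.algebraMap_apply K A (FractionRing A)]
    exact Rs.base φ _
  | add p q hp hq =>
    rw [map_add, MvPolynomial.eval₂_add]
    exact hp.add hq
  | mul_X p j hp =>
    rw [map_mul, MvPolynomial.aeval_X, MvPolynomial.eval₂_mul, MvPolynomial.eval₂_X]
    exact hp.mul (h j)

end rs

/-- SEQ: a generic sequence of points of `w ^ 2 = Y ^ 2 + q1 s + q2 s ^ 2 + q3 s ^ 3 + q4 s ^ 4` over the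
fraction field of `A`, with different abscissas, which specialize to `(0, Y)` at a place of `A`. -/
def S_SEQ : Prop := ∀ (K A : Type) [Field K] [CharZero K] [CommRing A] [IsDomain A]
  [UniqueFactorizationMonoid A] [Algebra K A] (y : K) (q1 q2 q3 q4 : A), y ≠ 0 →
  q1 ^ 3 - 4 * algebraMap K A y ^ 2 * q1 * q2 + 8 * (algebraMap K A y ^ 2) ^ 2 * q3 ≠ 0 →
  ¬ (q1 ^ 3 - 4 * algebraMap K A y ^ 2 * q1 * q2 + 8 * (algebraMap K A y ^ 2) ^ 2 * q3) ∣
    ((q1 ^ 2 - 4 * algebraMap K A y ^ 2 * q2) ^ 2 - 64 * (algebraMap K A y ^ 2) ^ 3 * q4) →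
  ∃ (k : Type) (_ : Field k) (φ : A →+* k) (s w : ℕ → FractionRing A), Function.Injective s ∧
    ∀ i, w i ^ 2 = algebraMap A (FractionRing A) (algebraMap K A y) ^ 2 +
        algebraMap A (FractionRing A) q1 * s i + algebraMap A (FractionRing A) q2 * s i ^ 2 +
        algebraMap A (FractionRing A) q3 * s i ^ 3 + algebraMap A (FractionRing A) q4 * s i ^ 4 ∧
      Rs φ (s i) 0 ∧ Rs φ (w i) (φ (algebraMap K A y))

/-- MVF: a rational function in several variables all of whose values are in a flat set (outside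
a hypersurface) is constant. -/
def S_MVF : Prop := ∀ (K : Type) [Field K] [CharZero K] (O : Set K), Pool.Agent.TH783.CE.Flat O →
  ∀ (κ : Type) [Fintype κ] (u v g : MvPolynomial κ K), v ≠ 0 → g ≠ 0 →
  (∀ e : κ → K, eval e v ≠ 0 → eval e g ≠ 0 → eval e u / eval e v ∈ O) → ∃ c : K, u = C c * v

/-- LINE: a polynomial which vanishes at infinitely many points of the generic line through a
point vanishes on the double cover. -/
def S_LINE : Prop := ∀ (K : Type) [Field K] [CharZero K] (n : ℕ) (f : MvPolynomial (Fin n) K),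
  f.totalDegree ≤ 4 → ∀ z0 : Fin n → K,
  (∃ V : Fin n → K, Pool.Agent.Y718.X.Db (lg f z0 V) ≠ 0) →
  ∀ s w : ℕ → FractionRing (MvPolynomial (Fin n) K), Function.Injective s →
  (∀ i, w i ^ 2 = ((Pool.Agent.Y718.CL.g0 f z0).map
    (algebraMap (MvPolynomial (Fin n) K) (FractionRing (MvPolynomial (Fin n) K)))).eval (s i)) →
  ∀ h : MvPolynomial (Fin n ⊕ Unit) K,
  (∀ i, aeval (Sum.elim (fun j => algebraMap (MvPolynomial (Fin n) K)
      (FractionRing (MvPolynomial (Fin n) K)) (C (z0 j)) + s i * algebraMap (MvPolynomial (Fin n) K)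
      (FractionRing (MvPolynomial (Fin n) K)) (X j)) (fun _ => w i)) h = 0) →
  ∀ (z : Fin n → K) (y : K), y ^ 2 = eval z f → eval (Sum.elim z fun _ => y) h = 0

section dh

variable {K : Type} [Field K] {n : ℕ}

/-- the dehomogenization -/
noncomputable def dh (F : MvPolynomial (Fin (n + 1)) K) (p : Fin (n + 1)) :
    MvPolynomial (Fin n) K :=
  MvPolynomial.aeval (Fin.insertNth (α := fun _ => MvPolynomial (Fin n) K) p 1 MvPolynomial.X) F

lemma dh_eval (F : MvPolynomial (Fin (n + 1)) K) (p : Fin (n + 1)) (z : Fin n → K) :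
    MvPolynomial.eval z (dh F p) = MvPolynomial.eval (ic p 1 z) F := by
  unfold dh
  induction F using MvPolynomial.induction_on with
  | C c => simp
  | add p q hp hq => simp only [map_add, hp, hq]
  | mul_X q i hq =>
    simp only [map_mul, hq, MvPolynomial.aeval_X, MvPolynomial.eval_X]
    congr 1
    rcases Fin.eq_self_or_eq_succAbove p i with h | ⟨j, rfl⟩
    · rw [h, ic_same, Fin.insertNth_apply_same, map_one]
    · rw [ic_above, Fin.insertNth_apply_succAbove, MvPolynomial.eval_X]

lemma dh_lg [Infinite K] (F : MvPolynomial (Fin (n + 1)) K) (p : Fin (n + 1)) (z v : Fin n → K) :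
    lg (dh F p) z v = lg F (ic p 1 z) (ic p 0 v) := by
  apply Polynomial.funext
  intro t
  rw [lg_eval, lg_eval, dh_eval, ic_add]

lemma dh_degree {F : MvPolynomial (Fin (n + 1)) K} (hF : F.IsHomogeneous 4) (p : Fin (n + 1)) :
    (dh F p).totalDegree ≤ 4 := by
  classical
  unfold dh
  rw [MvPolynomial.aeval_def, MvPolynomial.eval₂_eq]
  refine (MvPolynomial.totalDegree_finsetSum _ _).trans ?_
  refine Finset.sup_le fun d hd => ?_
  refine (MvPolynomial.totalDegree_mul _ _).trans ?_
  have h0 : (algebraMap K (MvPolynomial (Fin n) K) (MvPolynomial.coeff d F)).totalDegree = 0 := by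
    rw [MvPolynomial.algebraMap_eq, MvPolynomial.totalDegree_C]
  rw [h0, zero_add]
  refine (MvPolynomial.totalDegree_finsetProd _ _).trans ?_
  have h1 : ∑ i ∈ d.support, d i = 4 := by
    have := hF (MvPolynomial.mem_support_iff.mp hd)
    simpa [Finsupp.weight_apply, Finsupp.sum] using this
  refine (Finset.sum_le_sum (g := fun i => d i) fun i _ => ?_).trans h1.le
  refine (MvPolynomial.totalDegree_pow _ _).trans ?_
  have h2 : (Fin.insertNth (α := fun _ => MvPolynomial (Fin n) K) p 1 MvPolynomial.X i).totalDegree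
      ≤ 1 := by
    rcases Fin.eq_self_or_eq_succAbove p i with h | ⟨j, rfl⟩
    · rw [h, Fin.insertNth_apply_same, MvPolynomial.totalDegree_one]
      exact Nat.zero_le _
    · rw [Fin.insertNth_apply_succAbove, MvPolynomial.totalDegree_X]
  calc _ ≤ d i * 1 := Nat.mul_le_mul_left _ h2
    _ = d i := mul_one _

end dh

section cp

variable {K : Type} [Field K]

/-- An irreducible set of points such that the rational functions on it with values in `O` are
constant. -/
structure CP (O : Set K) {σ : Type} (X : Set (σ → K)) : Prop where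
  ne : X.Nonempty
  irr : ∀ g h : MvPolynomial σ K, (∀ x ∈ X, eval x g = 0 ∨ eval x h = 0) →
    (∀ x ∈ X, eval x g = 0) ∨ ∀ x ∈ X, eval x h = 0
  const : ∀ p q : MvPolynomial σ K, (∀ x ∈ X, eval x q ≠ 0 → eval x p / eval x q ∈ O) →
    (∃ x ∈ X, eval x q ≠ 0) → ∃ c, ∀ x ∈ X, eval x p = c * eval x q

end cp

/-- PI: products. -/
def S_PI : Prop := ∀ (K : Type) [Field K] (O : Set K) (ι : Type) [Fintype ι] (σ : ι → Type)
  (X : ∀ i, Set (σ i → K)), (∀ i, CP O (X i)) →
  CP O {x : (i : ι) × σ i → K | ∀ i, (fun r => x ⟨i, r⟩) ∈ X i}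

/-- BD: divisibility in the directions of a chart. -/
def S_BD : Prop := ∀ (K : Type) [Field K] [CharZero K] (n : ℕ)
  (F : MvPolynomial (Fin (n + 1)) K), F.IsHomogeneous 4 → ∀ (p : Fin (n + 1)) (z : Fin n → K),
  (gB (Pool.Agent.Y718.CL.g0 (dh F p) z) = 0 ∨
    gB (Pool.Agent.Y718.CL.g0 (dh F p) z) ∣ SF.gT (Pool.Agent.Y718.CL.g0 (dh F p) z)) →
  Pool.Agent.Y718.CL.Bad F (ic p 1 z)

end Pool.Agent.Y718.FQ
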