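import Pool.Agent.Y718.FQ.Fin
import Pool.Agent.Y48.FQ.Seq

/-!
# Values in flat sets
-/

set_option autoImplicit false

open MvPolynomial

namespace Pool.Agent.Y718.FQ

/-- **The set of the values of a rational function at the points of a product of blocks is finite if
it is contained in a flat set.** -/
theorem fin_vals {K : Type} [Field K] [CharZero K] {O : Set K}
    (hO : Pool.Agent.TH783.CE.Flat O) (φ : K →+* ℂ) {b : ℕ} {n : Fin b → ℕ}
    {S : ∀ j, Set (Fin (n j + 1) → K)} (hS : ∀ j, Blk (S j))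
    (p q : MvPolynomial ((j : Fin b) × Fin (n j + 1)) K)
    (h : ∀ t, (∃ x : (j : Fin b) × Fin (n j + 1) → K, (∀ j, (fun r => x ⟨j, r⟩) ∈ S j) ∧
      eval x q ≠ 0 ∧ t = eval x p / eval x q) → t ∈ O) :
    {t | ∃ x : (j : Fin b) × Fin (n j + 1) → K, (∀ j, (fun r => x ⟨j, r⟩) ∈ S j) ∧
      eval x q ≠ 0 ∧ t = eval x p / eval x q}.Finite :=
  fin_of_seq Pool.Agent.Y48.FQ.seq hO φ hS p q h

end Pool.Agent.Y718.FQ
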